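import Mathlib
import Pool.Agent.V11295.Pratt

/-!
The least prime with decimal digit sum `86` is `6999999989`, which does not end in `99`.
-/

namespace Pool.Agent.Results.MP_70678e_nt.LeastPrimeDigitSum86

theorem prime_246931 : Nat.Prime 246931 := by norm_num

theorem prime_big : Nat.Prime 6999999989 := by
  apply Pool.Agent.V11295.pratt 6999999989 2 33 [2, 2, 19, 373, 246931]
  · intro q hq
    simp only [List.mem_cons, List.not_mem_nil, or_false] at hq
    rcases hq with rfl | rfl | rfl | rfl | rfl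
    · norm_num
    · norm_num
    · norm_num
    · norm_num
    · exact prime_246931
  · decide +kernel

lemma digits_sum_step (n : ℕ) :
    (Nat.digits 10 n).sum = n % 10 + (Nat.digits 10 (n / 10)).sum := by
  rcases Nat.eq_zero_or_pos n with h | h
  · subst h; simp
  · rw [Nat.digits_def' (by norm_num) h]; simp

lemma digits_sum_small (n : ℕ) (h : n < 10) : (Nat.digits 10 n).sum = n := by
  rw [digits_sum_step, Nat.div_eq_of_lt h, Nat.mod_eq_of_lt h]; simp

lemma digit_step (n : ℕ) : ∃ m d : ℕ, n = 10 * m + d ∧ d ≤ 9 ∧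
    (Nat.digits 10 n).sum = d + (Nat.digits 10 m).sum :=
  ⟨n / 10, n % 10, by omega, by omega, digits_sum_step n⟩

/-- the candidates below `6999999989` with digit sum `86` -/
lemma candidates (n : ℕ) (hn : n < 6999999989) (hs : (Nat.digits 10 n).sum = 86) :
    n = 5999999999 ∨ n = 6899999999 ∨ n = 6989999999 ∨ n = 6998999999 ∨ n = 6999899999 ∨
      n = 6999989999 ∨ n = 6999998999 ∨ n = 6999999899 := by
  obtain ⟨n1, d0, f0, b0, t0⟩ := digit_step n
  obtain ⟨n2, d1, f1, b1, t1⟩ := digit_step n1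
  obtain ⟨n3, d2, f2, b2, t2⟩ := digit_step n2
  obtain ⟨n4, d3, f3, b3, t3⟩ := digit_step n3
  obtain ⟨n5, d4, f4, b4, t4⟩ := digit_step n4
  obtain ⟨n6, d5, f5, b5, t5⟩ := digit_step n5
  obtain ⟨n7, d6, f6, b6, t6⟩ := digit_step n6
  obtain ⟨n8, d7, f7, b7, t7⟩ := digit_step n7
  obtain ⟨n9, d8, f8, b8, t8⟩ := digit_step n8
  have u9 : n9 ≤ 6 := by
    have c1 : n1 < 699999999 := by omega
    have c2 : n2 < 70000000 := by omega
    have c3 : n3 < 7000000 := by omega
    have c4 : n4 < 700000 := by omega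
    have c5 : n5 < 70000 := by omega
    have c6 : n6 < 7000 := by omega
    have c7 : n7 < 700 := by omega
    have c8 : n8 < 70 := by omega
    omega
  have t9 : (Nat.digits 10 n9).sum = n9 := digits_sum_small n9 (by omega)
  have key : d0 + d1 + d2 + d3 + d4 + d5 + d6 + d7 + d8 + n9 = 86 := by
    clear f0 f1 f2 f3 f4 f5 f6 f7 f8
    linarith
  clear t0 t1 t2 t3 t4 t5 t6 t7 t8 t9 hs
  have l9 : 5 ≤ n9 := by clear f0 f1 f2 f3 f4 f5 f6 f7 f8 hn; omega
  have l8 : 8 ≤ d8 := by clear f0 f1 f2 f3 f4 f5 f6 f7 f8 hn; omega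
  have l7 : 8 ≤ d7 := by clear f0 f1 f2 f3 f4 f5 f6 f7 f8 hn; omega
  have l6 : 8 ≤ d6 := by clear f0 f1 f2 f3 f4 f5 f6 f7 f8 hn; omega
  have l5 : 8 ≤ d5 := by clear f0 f1 f2 f3 f4 f5 f6 f7 f8 hn; omega
  have l4 : 8 ≤ d4 := by clear f0 f1 f2 f3 f4 f5 f6 f7 f8 hn; omega
  have l3 : 8 ≤ d3 := by clear f0 f1 f2 f3 f4 f5 f6 f7 f8 hn; omega
  have l2 : 8 ≤ d2 := by clear f0 f1 f2 f3 f4 f5 f6 f7 f8 hn; omega
  have l1 : 8 ≤ d1 := by clear f0 f1 f2 f3 f4 f5 f6 f7 f8 hn; omega
  have l0 : 8 ≤ d0 := by clear f0 f1 f2 f3 f4 f5 f6 f7 f8 hn; omega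
  have hN : n = 1000000000 * n9 + 100000000 * d8 + 10000000 * d7 + 1000000 * d6 + 100000 * d5
      + 10000 * d4 + 1000 * d3 + 100 * d2 + 10 * d1 + d0 := by
    rw [f0, f1, f2, f3, f4, f5, f6, f7, f8]; ring
  clear f0 f1 f2 f3 f4 f5 f6 f7 f8
  interval_cases n9
  · left
    have : d0 = 9 ∧ d1 = 9 ∧ d2 = 9 ∧ d3 = 9 ∧ d4 = 9 ∧ d5 = 9 ∧ d6 = 9 ∧ d7 = 9 ∧ d8 = 9 := by
      refine ⟨?_, ?_, ?_, ?_, ?_, ?_, ?_, ?_, ?_⟩ <;> · clear hN hn; omega
    obtain ⟨rfl, rfl, rfl, rfl, rfl, rfl, rfl, rfl, rfl⟩ := this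
    simpa using hN
  · right
    interval_cases d8
    · left
      have : d0 = 9 ∧ d1 = 9 ∧ d2 = 9 ∧ d3 = 9 ∧ d4 = 9 ∧ d5 = 9 ∧ d6 = 9 ∧ d7 = 9 := by
        refine ⟨?_, ?_, ?_, ?_, ?_, ?_, ?_, ?_⟩ <;> · clear hN hn; omega
      obtain ⟨rfl, rfl, rfl, rfl, rfl, rfl, rfl, rfl⟩ := this
      simpa using hN
    · right
      interval_cases d7
      · left
        have : d0 = 9 ∧ d1 = 9 ∧ d2 = 9 ∧ d3 = 9 ∧ d4 = 9 ∧ d5 = 9 ∧ d6 = 9 := by
          refine ⟨?_, ?_, ?_, ?_, ?_, ?_, ?_⟩ <;> · clear hN hn; omega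
        obtain ⟨rfl, rfl, rfl, rfl, rfl, rfl, rfl⟩ := this
        simpa using hN
      · right
        interval_cases d6
        · left
          have : d0 = 9 ∧ d1 = 9 ∧ d2 = 9 ∧ d3 = 9 ∧ d4 = 9 ∧ d5 = 9 := by
            refine ⟨?_, ?_, ?_, ?_, ?_, ?_⟩ <;> · clear hN hn; omega
          obtain ⟨rfl, rfl, rfl, rfl, rfl, rfl⟩ := this
          simpa using hN
        · right
          interval_cases d5
          · left
            have : d0 = 9 ∧ d1 = 9 ∧ d2 = 9 ∧ d3 = 9 ∧ d4 = 9 := by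
              refine ⟨?_, ?_, ?_, ?_, ?_⟩ <;> · clear hN hn; omega
            obtain ⟨rfl, rfl, rfl, rfl, rfl⟩ := this
            simpa using hN
          · right
            interval_cases d4
            · left
              have : d0 = 9 ∧ d1 = 9 ∧ d2 = 9 ∧ d3 = 9 := by
                refine ⟨?_, ?_, ?_, ?_⟩ <;> · clear hN hn; omega
              obtain ⟨rfl, rfl, rfl, rfl⟩ := this
              simpa using hN
            · right
              interval_cases d3
              · left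
                have : d0 = 9 ∧ d1 = 9 ∧ d2 = 9 := by
                  refine ⟨?_, ?_, ?_⟩ <;> · clear hN hn; omega
                obtain ⟨rfl, rfl, rfl⟩ := this
                simpa using hN
              · right
                interval_cases d2
                · have : d0 = 9 ∧ d1 = 9 := by
                    refine ⟨?_, ?_⟩ <;> · clear hN hn; omega
                  obtain ⟨rfl, rfl⟩ := this
                  simpa using hN
                · exfalso
                  omega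

lemma not_prime_of_eq_mul {n : ℕ} (a b : ℕ) (h : n = a * b) (ha : a ≠ 1) (hb : b ≠ 1) :
    ¬ n.Prime := by
  rw [h]; exact Nat.not_prime_mul ha hb

lemma candidates_not_prime (n : ℕ) (hn : n < 6999999989) (hs : (Nat.digits 10 n).sum = 86) :
    ¬ n.Prime := by
  rcases candidates n hn hs with h | h | h | h | h | h | h | h
  · exact not_prime_of_eq_mul 7 857142857 (by rw [h]) (by norm_num) (by norm_num)
  · exact not_prime_of_eq_mul 6089 1133191 (by rw [h]) (by norm_num) (by norm_num)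
  · exact not_prime_of_eq_mul 827 8452237 (by rw [h]) (by norm_num) (by norm_num)
  · exact not_prime_of_eq_mul 19 368368421 (by rw [h]) (by norm_num) (by norm_num)
  · exact not_prime_of_eq_mul 61 114752459 (by rw [h]) (by norm_num) (by norm_num)
  · exact not_prime_of_eq_mul 31 225806129 (by rw [h]) (by norm_num) (by norm_num)
  · exact not_prime_of_eq_mul 7 999999857 (by rw [h]) (by norm_num) (by norm_num)
  · exact not_prime_of_eq_mul 3011 2324809 (by rw [h]) (by norm_num) (by norm_num)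

/-- There is `k > 59` such that the least prime with decimal digit sum `k` exists and does not
end in the two digits `99`. -/
theorem result :
    ∃ k : ℕ, 59 < k ∧
      ∃ p : ℕ, IsLeast {q : ℕ | q.Prime ∧ (Nat.digits 10 q).sum = k} p ∧ ¬ p ≡ 99 [MOD 100] := by
  refine ⟨86, by norm_num, 6999999989, ⟨⟨prime_big, by norm_num⟩, ?_⟩, by norm_num [Nat.ModEq]⟩
  intro q hq
  by_contra hlt
  exact candidates_not_prime q (not_le.mp hlt) hq.2 hq.1

end Pool.Agent.Results.MP_70678e_nt.LeastPrimeDigitSum86
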